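import Pool.Agent.Helper18.NF.StC
import Pool.Agent.Helper44.BV.Mass

/-!
# Project NF (MP_265190_nt), module D1: few integers without large prime factors
-/

set_option autoImplicit false

open Finset Filter Topology
open scoped ArithmeticFunction.vonMangoldt

namespace Pool.Agent.Helper66.NF

open Pool.Agent.Helper18.NF Pool.Agent.Helper18.BV

/-- Sum of the `p`-adic valuations of `1, ..., N`. -/
theorem sum_factorization_le (p N : ℕ) (hp : p.Prime) :
    ((p : ℝ) - 1) * ∑ a ∈ Ioc 0 N, (a.factorization p : ℝ) ≤ N := by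
  have := Fact.mk hp
  have h1 : ∑ a ∈ Ioc 0 N, a.factorization p = padicValNat p (Nat.factorial N) := by
    induction N with
    | zero => simp
    | succ n ih =>
      rw [sum_Ioc_succ_top (Nat.zero_le n), ih, Nat.factorial_succ,
        padicValNat.mul (Nat.succ_ne_zero n) (Nat.factorial_ne_zero n),
        Nat.factorization_def _ hp, add_comm]
  have h2 := sub_one_mul_padicValNat_factorial (p := p) N
  have h3 : (p - 1) * padicValNat p (Nat.factorial N) ≤ N := by
    rw [h2]; exact Nat.sub_le _ _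
  have h4 : (((p - 1 : ℕ) : ℝ)) * ((padicValNat p (Nat.factorial N) : ℕ) : ℝ) ≤ (N : ℝ) := by
    exact_mod_cast h3
  rw [Nat.cast_sub hp.one_lt.le] at h4
  rw [← h1] at h4
  push_cast at h4
  exact h4

theorem smooth : Smooth := by
  refine ⟨40, by norm_num, ?_⟩
  intro x z hz hzx
  classical
  have hx : 2 ≤ x := hz.trans hzx
  have hx0 : 0 < x := by linarith
  have hlogx : 0 < Real.log x := Real.log_pos (by linarith)
  have hlog2 : (0.69 : ℝ) < Real.log z :=
    (by linarith [Real.log_two_gt_d9] : (0.69 : ℝ) < Real.log 2).trans_le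
      (Real.log_le_log (by norm_num) hz)
  set N := ⌊x⌋₊ with hN
  have hNx : (N : ℝ) ≤ x := Nat.floor_le hx0.le
  set P := (Ioc 0 ⌊z⌋₊).filter Nat.Prime with hP
  set S := (range (N + 1)).filter
    (fun a => 1 ≤ a ∧ ∀ p : ℕ, p.Prime → p ∣ a → (p : ℝ) ≤ z) with hS
  -- the logarithm of a smooth number
  have hlog : ∀ a ∈ S, Real.log a = ∑ p ∈ P, (a.factorization p : ℝ) * Real.log p := by
    intro a ha
    obtain ⟨ha1, ha2, ha3⟩ := mem_filter.1 ha
    have ha0 : a ≠ 0 := by omega
    have h1 : a.factorization.prod (fun p k => p ^ k) = a := Nat.prod_factorization_pow_eq_self ha0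
    have h2 : ∏ p ∈ P, p ^ a.factorization p = a := by
      have hsub : a.factorization.support ⊆ P := by
        intro p hp
        rw [Nat.support_factorization, Nat.mem_primeFactors] at hp
        exact mem_filter.2 ⟨mem_Ioc.2 ⟨hp.1.pos, Nat.le_floor (ha3 p hp.1 hp.2.1)⟩, hp.1⟩
      rw [← Finsupp.prod_of_support_subset a.factorization hsub (fun p k => p ^ k)
        (fun p _ => by simp)]
      exact h1
    calc Real.log a = Real.log ((∏ p ∈ P, p ^ a.factorization p : ℕ) : ℝ) := by rw [h2]
      _ = _ := by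
        push_cast
        rw [Real.log_prod]
        · refine sum_congr rfl fun p _ => ?_
          rw [Real.log_pow]
        · intro p hp
          have := (mem_filter.1 hp).2.pos
          positivity
  -- total logarithm
  have htot : ∑ a ∈ S, Real.log a ≤ 20 * (x * Real.log z) := by
    have e1 : ∑ a ∈ S, Real.log a = ∑ p ∈ P, Real.log p * ∑ a ∈ S, (a.factorization p : ℝ) := by
      rw [sum_congr rfl hlog, sum_comm]
      refine sum_congr rfl fun p _ => ?_
      rw [mul_sum]
      exact sum_congr rfl fun a _ => mul_comm _ _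
    have e2 : ∀ p ∈ P, Real.log p * ∑ a ∈ S, (a.factorization p : ℝ)
        ≤ 2 * x * (Λ p / p) := by
      intro p hp
      have hpp := (mem_filter.1 hp).2
      have hp2 : (2 : ℝ) ≤ p := by exact_mod_cast hpp.two_le
      have hlp : 0 ≤ Real.log p := Real.log_nonneg (by linarith)
      have f1 : ∑ a ∈ S, (a.factorization p : ℝ) ≤ ∑ a ∈ Ioc 0 N, (a.factorization p : ℝ) := by
        refine sum_le_sum_of_subset_of_nonneg ?_ (fun _ _ _ => Nat.cast_nonneg _)
        intro a ha
        obtain ⟨ha1, ha2, _⟩ := mem_filter.1 ha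
        exact mem_Ioc.2 ⟨ha2, by have := mem_range.1 ha1; omega⟩
      have f2 := sum_factorization_le p N hpp
      have f3 : ∑ a ∈ Ioc 0 N, (a.factorization p : ℝ) ≤ 2 * x / p := by
        rw [le_div_iff₀ (by linarith)]
        have f4 : 0 ≤ ∑ a ∈ Ioc 0 N, (a.factorization p : ℝ) :=
          sum_nonneg fun _ _ => Nat.cast_nonneg _
        nlinarith
      rw [ArithmeticFunction.vonMangoldt_apply_prime hpp]
      calc Real.log p * ∑ a ∈ S, (a.factorization p : ℝ)
          ≤ Real.log p * (2 * x / p) := mul_le_mul_of_nonneg_left (f1.trans f3) hlp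
        _ = 2 * x * (Real.log p / p) := by ring
    have e3 : ∑ p ∈ P, Λ p / p ≤ Real.log z + 6 := by
      refine le_trans ?_ (Pool.Agent.Helper44.BV.sum_Lambda_Ioc_le (x := z) (by linarith))
      refine sum_le_sum_of_subset_of_nonneg (filter_subset _ _) (fun n _ _ => ?_)
      exact div_nonneg ArithmeticFunction.vonMangoldt_nonneg (Nat.cast_nonneg _)
    calc ∑ a ∈ S, Real.log a ≤ ∑ p ∈ P, 2 * x * (Λ p / p) := by
          rw [e1]; exact sum_le_sum e2
      _ = 2 * x * ∑ p ∈ P, Λ p / p := by rw [mul_sum]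
      _ ≤ 2 * x * (Real.log z + 6) := mul_le_mul_of_nonneg_left e3 (by linarith)
      _ ≤ 20 * (x * Real.log z) := by nlinarith
  -- split
  set A := S.filter (fun a : ℕ => (a : ℝ) ≤ Real.sqrt x) with hA
  set B := S.filter (fun a : ℕ => ¬ (a : ℝ) ≤ Real.sqrt x) with hB
  have hcard : S.card = A.card + B.card := by
    rw [hA, hB]
    exact (card_filter_add_card_filter_not (s := S) (fun a : ℕ => (a : ℝ) ≤ Real.sqrt x)).symm
  have hAc : (A.card : ℝ) ≤ Real.sqrt x := by
    have h1 : A ⊆ Ioc 0 ⌊Real.sqrt x⌋₊ := by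
      intro a ha
      obtain ⟨ha1, ha2⟩ := mem_filter.1 ha
      obtain ⟨_, ha3, _⟩ := mem_filter.1 ha1
      exact mem_Ioc.2 ⟨ha3, Nat.le_floor ha2⟩
    have h2 := card_le_card h1
    rw [Nat.card_Ioc, Nat.sub_zero] at h2
    calc (A.card : ℝ) ≤ (⌊Real.sqrt x⌋₊ : ℝ) := by exact_mod_cast h2
      _ ≤ _ := Nat.floor_le (Real.sqrt_nonneg x)
  have hBc : (B.card : ℝ) * (Real.log x / 2) ≤ 20 * (x * Real.log z) := by
    calc (B.card : ℝ) * (Real.log x / 2) = ∑ _a ∈ B, Real.log x / 2 := by
          rw [sum_const, nsmul_eq_mul]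
      _ ≤ ∑ a ∈ B, Real.log a := by
          refine sum_le_sum fun a ha => ?_
          have h1 := (mem_filter.1 ha).2
          push Not at h1
          rw [← Real.log_sqrt hx0.le]
          exact Real.log_le_log (Real.sqrt_pos.2 hx0) h1.le
      _ ≤ ∑ a ∈ S, Real.log a := by
          refine sum_le_sum_of_subset_of_nonneg (filter_subset _ _) (fun a ha _ => ?_)
          obtain ⟨_, ha3, _⟩ := mem_filter.1 ha
          exact Real.log_nonneg (by exact_mod_cast ha3)
      _ ≤ _ := htot
  have hBf : (B.card : ℝ) ≤ 40 * x * Real.log z / Real.log x := by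
    rw [le_div_iff₀ hlogx]
    linarith
  rw [hcard]
  push_cast
  linarith

end Pool.Agent.Helper66.NF
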